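import Pool.Agent.Lib.MP_1a91b9_nuT3.Base
import Pool.Agent.Lib.MP_1a91b9_nuT.S5.Places

/-!
# S8 (T3): subfields of Galois extensions of `K` of degree a power of three are towers
-/

set_option autoImplicit false

namespace Pool.Agent.Lib.MP_1a91b9_nuT3.S8

variable [Pool.Agent.Lib.MP_1a91b9_nuT.CD]

open NumberField IsDedekindDomain Module Pool.Agent.Lib.MP_1a91b9_nuT
open Pool.Agent.Lib.MP_1a91b9_nuT.S5 (below mem_below exists_above below_below)

universe u

section ram
variable {k F F' : Type*} [Field k] [NumberField k] [Field F] [NumberField F] [Field F']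
  [NumberField F'] [Algebra k F] [Algebra k F'] [Algebra F F'] [IsScalarTower k F F']

omit [NumberField k] [NumberField F] [NumberField F'] in
theorem algebraMap_tower (x : 𝓞 k) : algebraMap (𝓞 F) (𝓞 F') (algebraMap (𝓞 k) (𝓞 F) x) =
    algebraMap (𝓞 k) (𝓞 F') x := by
  apply RingOfIntegers.ext
  exact (IsScalarTower.algebraMap_apply k F F' (x : k)).symm

theorem map_tower (I : Ideal (𝓞 k)) :
    I.map (algebraMap (𝓞 k) (𝓞 F')) =
      (I.map (algebraMap (𝓞 k) (𝓞 F))).map (algebraMap (𝓞 F) (𝓞 F')) := by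
  rw [Ideal.map_map]
  have h : algebraMap (𝓞 k) (𝓞 F') = (algebraMap (𝓞 F) (𝓞 F')).comp (algebraMap (𝓞 k) (𝓞 F)) :=
    RingHom.ext fun x => (algebraMap_tower x).symm
  rw [h]

/-- Ramification at a place gives ramification at the place below. -/
theorem ram_down (v : HeightOneSpectrum (𝓞 F)) (h : Ram F' v) : Ram F' (below k v) := by
  obtain ⟨w, hw⟩ := h
  refine ⟨w, ?_⟩
  rw [map_tower (F := F)]
  refine (Ideal.map_mono ?_).trans hw
  rw [Ideal.map_le_iff_le_comap]
  exact le_of_eq rfl

/-- Ramification goes up. -/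
theorem ram_up (q : HeightOneSpectrum (𝓞 k)) (h : Ram F q) : Ram F' q := by
  obtain ⟨w, hw⟩ := h
  obtain ⟨w', hw'⟩ := exists_above F F' w
  refine ⟨w', ?_⟩
  rw [map_tower (F := F)]
  refine (Ideal.map_mono hw).trans ?_
  rw [Ideal.map_pow]
  refine Ideal.pow_right_mono ?_ 2
  rw [Ideal.map_le_iff_le_comap, ← hw']
  exact le_of_eq rfl

end ram

section res
variable {F F' : Type*} [Field F] [NumberField F] [Field F'] [NumberField F'] [Algebra F F']


end res

section group

/-- In a tower `k ⊆ F ⊆ M`, with `M` Galois over `k` of degree a power of the prime `ℓ`, an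
extension `F` of degree `ℓ` is Galois. -/
theorem galois_of_prime {k F M : Type*} [Field k] [Field F] [Field M] [Algebra k F] [Algebra k M]
    [Algebra F M] [IsScalarTower k F M] [IsGalois k M] [FiniteDimensional k M] {ℓ n : ℕ}
    (hℓ : ℓ.Prime) (hM : finrank k M = ℓ ^ n) (hF : finrank k F = ℓ) : IsGalois k F := by
  let f : F →ₐ[k] M := IsScalarTower.toAlgHom k F M
  let e : F ≃ₐ[k] f.fieldRange := AlgEquiv.ofInjectiveField f
  have h1 : finrank k f.fieldRange = ℓ := by
    rw [← e.toLinearEquiv.finrank_eq, hF]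
  have h2 : f.fieldRange.fixingSubgroup.index = ℓ := by
    rw [← IntermediateField.finrank_eq_fixingSubgroup_index, h1]
  have hcard : Nat.card Gal(M/k) = ℓ ^ n := by
    rw [IsGalois.card_aut_eq_finrank, hM]
  have hn : n ≠ 0 := by
    rintro rfl
    have h3 : f.fieldRange.fixingSubgroup.index ∣ Nat.card Gal(M/k) := Subgroup.index_dvd_card _
    rw [hcard, h2, pow_zero, Nat.dvd_one] at h3
    exact hℓ.one_lt.ne' h3
  have h4 : f.fieldRange.fixingSubgroup.Normal := by
    apply Subgroup.normal_of_index_eq_minFac_card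
    rw [h2, hcard, Nat.Prime.pow_minFac hℓ hn]
  have h5 : IsGalois k f.fieldRange := (InfiniteGalois.normal_iff_isGalois _).1 h4
  exact IsGalois.of_algEquiv e.symm

end group


end Pool.Agent.Lib.MP_1a91b9_nuT3.S8
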