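import Pool.Agent.Lib.MP_1a91b9_nuT.S3.Card
import Pool.Agent.Lib.MP_1a91b9_nuT3.S8.Gal

/-!
# Towers above any model of `ℚ(√-3)`
-/

set_option autoImplicit false

namespace Pool.Agent.Lib.MP_1a91b9_nuT3.S8

variable [Pool.Agent.Lib.MP_1a91b9_nuT.CD]

open NumberField IsDedekindDomain Module Pool.Agent.Lib.MP_1a91b9_nuT

universe u

/-- The isomorphism of `K` with a quadratic field which contains a root of the equation of
`om`. -/
theorem exists_equiv {K₀ : Type*} [Field K₀] [NumberField K₀] (hK : finrank ℚ K₀ = 2) {w : K₀}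
    (hw : w ^ 2 = (CD.tr : K₀) * w - (CD.nm : K₀)) : ∃ e : K ≃+* K₀, e om = w := by
  let φ₀ : K₀ →ₐ[ℚ] ℂ := IsAlgClosed.lift (R := ℚ) (S := K₀) (M := ℂ)
  obtain ⟨φ, hφ⟩ : ∃ φ : K₀ →ₐ[ℚ] ℂ, φ w = zt := by
    have h1 : (φ₀ w) ^ 2 = (CD.tr : ℂ) * φ₀ w - (CD.nm : ℂ) := by
      rw [← map_pow, hw, map_sub, map_mul, map_intCast, map_intCast]
    have h2 : (φ₀ w - zt) * (φ₀ w - (starRingEnd ℂ) zt) = 0 := by
      rw [conj_zt]
      linear_combination h1 - zt_quad
    rcases mul_eq_zero.1 h2 with h3 | h3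
    · exact ⟨φ₀, sub_eq_zero.1 h3⟩
    · refine ⟨(Complex.conjAe.toAlgHom.restrictScalars ℚ).comp φ₀, ?_⟩
      change (starRingEnd ℂ) (φ₀ w) = zt
      rw [sub_eq_zero.1 h3, Complex.conj_conj]
  have hr : ∀ x : K, embK x ∈ φ.range := by
    intro x
    obtain ⟨a, b, rfl⟩ := exists_rat_coords x
    refine ⟨(a : K₀) + (b : K₀) * w, ?_⟩
    change φ ((a : K₀) + (b : K₀) * w) = _
    rw [map_add, map_mul, map_ratCast, map_ratCast, hφ, map_add, map_mul, map_ratCast, map_ratCast,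
      embK_om]
  let f : K →ₐ[ℚ] K₀ := ((AlgEquiv.ofInjective φ φ.toRingHom.injective).symm : φ.range →ₐ[ℚ] K₀).comp
    (embK.codRestrict φ.range hr)
  have hf1 : ∀ x : K, φ (f x) = embK x := by
    intro x
    have h := AlgEquiv.apply_symm_apply (AlgEquiv.ofInjective φ φ.toRingHom.injective)
      ((embK.codRestrict φ.range hr) x)
    exact congrArg Subtype.val h
  have hf : f om = w := by
    apply φ.toRingHom.injective
    change φ (f om) = φ w
    rw [hf1, embK_om, hφ]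
  have hfin : finrank ℚ K = finrank ℚ K₀ := by
    rw [hK, finrank_K]
  have hbij : Function.Bijective f := by
    have h1 : Function.Injective f.toLinearMap := f.toRingHom.injective
    exact ⟨h1, (LinearMap.injective_iff_surjective_of_finrank_eq_finrank hfin).1 h1⟩
  exact ⟨(AlgEquiv.ofBijective f hbij).toRingEquiv, hf⟩

end Pool.Agent.Lib.MP_1a91b9_nuT3.S8
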