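import Pool.Agent.Lib.MP_1a91b9_nuT3.S8.Gal
import Pool.Agent.Lib.MP_1a91b9_nuT.D6.Defs

/-!
# S8 (T3): the different of an extension of `K` unramified above `q`
-/

set_option autoImplicit false

namespace Pool.Agent.Lib.MP_1a91b9_nuT3.S8

variable [Pool.Agent.Lib.MP_1a91b9_nuT.CD]

open NumberField IsDedekindDomain Module Pool.Agent.Lib.MP_1a91b9_nuT
open Pool.Agent.Lib.MP_1a91b9_nuT.S5 (below mem_below exists_above below_below)

universe u

section
variable {k F F' : Type*} [Field k] [NumberField k] [Field F] [NumberField F] [Field F']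
  [NumberField F'] [Algebra k F] [Algebra k F'] [Algebra F F'] [IsScalarTower k F F']

/-- A place whose extension is contained in a place above. -/
theorem eq_below (q : HeightOneSpectrum (𝓞 k)) (w : HeightOneSpectrum (𝓞 F))
    (h : q.asIdeal.map (algebraMap (𝓞 k) (𝓞 F)) ≤ w.asIdeal) : below k w = q := by
  apply HeightOneSpectrum.ext
  refine (q.isMaximal.eq_of_le (below k w).isPrime.ne_top ?_).symm
  exact Ideal.map_le_iff_le_comap.1 h

/-- Unramified places in towers. -/
theorem not_ram_tower (q : HeightOneSpectrum (𝓞 k)) (h1 : ¬ Ram F q)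
    (h2 : ∀ v : HeightOneSpectrum (𝓞 F), below k v = q → ¬ Ram F' v) : ¬ Ram F' q := by
  rintro ⟨w, hw⟩
  have hqw := eq_below q w (hw.trans (Ideal.pow_le_self two_ne_zero))
  have hvq : below k (below F w) = q := by rw [below_below, hqw]
  have hle : q.asIdeal.map (algebraMap (𝓞 k) (𝓞 F)) ≤ (below F w).asIdeal := by
    rw [Ideal.map_le_iff_le_comap, ← hvq]
    exact le_of_eq rfl
  obtain ⟨J, hJ⟩ := Ideal.dvd_iff_le.2 hle
  have hJv : ¬ J ≤ (below F w).asIdeal := by
    intro h
    apply h1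
    refine ⟨below F w, ?_⟩
    rw [hJ, sq]
    exact Ideal.mul_mono_right h
  apply h2 (below F w) hvq
  refine ⟨w, ?_⟩
  rw [map_tower (F := F), hJ, Ideal.map_mul, ← Ideal.dvd_iff_le] at hw
  rw [← Ideal.dvd_iff_le]
  refine w.prime.pow_dvd_of_dvd_mul_right 2 ?_ hw
  intro h
  rw [Ideal.dvd_iff_le, Ideal.map_le_iff_le_comap] at h
  exact hJv h


end

/-- The dual of the ring of integers is integral away from the ramified primes. -/
theorem uq_of_unram (q : ℕ) (hq : q.Prime) (F : Type u) [Field F] [NumberField F] [Algebra K F]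
    (h : ∀ v : HeightOneSpectrum (𝓞 K), (q : 𝓞 K) ∈ v.asIdeal → ¬ Ram F v) : Ell.UQ q F := by
  set D := differentIdeal (𝓞 K) (𝓞 F) with hD
  refine ⟨Ideal.absNorm D, ?_, ?_⟩
  · rw [Nat.coprime_comm, Nat.Prime.coprime_iff_not_dvd hq]
    intro hdvd
    obtain ⟨P, hPm, hPq, hPD⟩ := Ideal.exists_isMaximal_dvd_of_dvd_absNorm' hq D hdvd
    have hP0 : P ≠ ⊥ := by
      rintro rfl
      have h1 : D = ⊥ := by
        have := Ideal.dvd_iff_le.1 hPD
        rwa [le_bot_iff] at this
      exact differentIdeal_ne_bot h1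
    set w : HeightOneSpectrum (𝓞 F) := ⟨P, hPm.isPrime, hP0⟩ with hw
    have hqP : (q : 𝓞 F) ∈ P := by
      have h1 : (q : ℤ) ∈ P.under ℤ := by
        rw [hPq]
        exact Ideal.mem_span_singleton_self _
      have h2 : algebraMap ℤ (𝓞 F) (q : ℤ) ∈ P := h1
      simpa using h2
    have hram := h (below K w) (by
      rw [mem_below, map_natCast]
      exact hqP)
    have hle : (below K w).asIdeal.map (algebraMap (𝓞 K) (𝓞 F)) ≤ w.asIdeal :=
      Ideal.map_le_iff_le_comap.2 le_rfl
    obtain ⟨J, hJ⟩ := Ideal.dvd_iff_le.2 hle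
    have hmax : (below K w).asIdeal.IsMaximal := (below K w).isMaximal
    have hfin : Finite (𝓞 K ⧸ (below K w).asIdeal) :=
      Ring.HasFiniteQuotients.finiteQuotient (below K w).ne_bot
    refine not_dvd_differentIdeal_of_isCoprime (𝓞 K) P J ?_ hJ.symm hPD
    rw [Ideal.isCoprime_iff_sup_eq]
    by_contra hne
    have h3 := hPm.eq_of_le hne le_sup_left
    have h4 : J ≤ P := by
      rw [h3]
      exact le_sup_right
    apply hram
    refine ⟨w, ?_⟩
    rw [hJ, sq]
    exact Ideal.mul_mono_right h4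
  · intro v hv
    have h1 : (algebraMap (𝓞 F) F) (Ideal.absNorm D : 𝓞 F) ∈
        IsLocalization.coeSubmodule F (differentIdeal (𝓞 K) (𝓞 F)) :=
      Submodule.mem_map_of_mem (Ideal.absNorm_mem D)
    rw [coeSubmodule_differentIdeal (𝓞 K) K, Submodule.mem_div_iff_forall_mul_mem] at h1
    have h2 : v ∈ Submodule.traceDual (𝓞 K) K (1 : Submodule (𝓞 F) F) := by
      rw [Submodule.mem_traceDual]
      intro a ha
      obtain ⟨z, rfl⟩ := Submodule.mem_one.1 ha
      obtain ⟨c, hc⟩ := hv z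
      exact ⟨c, by rw [Algebra.traceForm_apply]; exact hc.symm⟩
    obtain ⟨z, hz⟩ := Submodule.mem_one.1 (h1 v h2)
    rw [map_natCast] at hz
    rw [← hz]
    exact RingOfIntegers.isIntegral_coe z


end Pool.Agent.Lib.MP_1a91b9_nuT3.S8
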